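import Mathlib

set_option autoImplicit false

namespace Pool.Agent.Results.MP_9fbb3c_co.Counter

open Finset

/-- `B` lists the `v` blocks of a symmetric BIBD with `v` points and block size `k`. -/
def SymBIBD (v k : ℕ) (B : Fin v → Finset (Fin v)) : Prop :=
  2 ≤ k ∧ k < v ∧ (∀ i, (B i).card = k) ∧
    ∃ lam : ℕ, 0 < lam ∧ ∀ x y : Fin v, x ≠ y →
      (univ.filter (fun i => x ∈ B i ∧ y ∈ B i)).card = lam

/-- `f` is a 0-ULSE `l`-colouring. -/
def ULSE (v k l : ℕ) (B : Fin v → Finset (Fin v)) (f : Fin v → Fin l) : Prop :=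
  Function.Surjective f ∧ (l - 1) ∣ k ∧
    ∀ i, ∃ c : Fin l, ((B i).filter (fun x => f x = c)).card = 0 ∧
      ∀ c' : Fin l, c' ≠ c → ((B i).filter (fun x => f x = c')).card = k / (l - 1)

def D (i : Fin 16) : Finset (Fin 16) :=
  univ.filter (fun x => (x.1 / 4 = i.1 / 4 ↔ x.1 % 4 = i.1 % 4))

lemma count {v : ℕ} (B : Fin v → Finset (Fin v)) (lam : ℕ)
    (h : ∀ x y : Fin v, x ≠ y → (univ.filter (fun i => x ∈ B i ∧ y ∈ B i)).card = lam)
    (x : Fin v) (S : Finset (Fin v)) (hx : x ∉ S) (t : ℕ)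
    (ht : ∀ i, x ∈ B i → (S.filter (fun y => y ∈ B i)).card = t) :
    (univ.filter (fun i => x ∈ B i)).card * t = S.card * lam := by
  have e := sum_card_bipartiteAbove_eq_sum_card_bipartiteBelow
    (s := univ.filter (fun i => x ∈ B i)) (t := S) (fun i y => y ∈ B i)
  rw [sum_congr rfl (g := fun _ => t), sum_congr rfl (s₁ := S) (g := fun _ => lam)] at e
  · simpa using e
  · intro y hy
    rw [← h x y (fun e => hx (e ▸ hy)), bipartiteBelow, filter_filter]
  · intro i hi
    exact ht i (mem_filter.1 hi).2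

theorem result : ∃ v k l : ℕ, 0 < v ∧ 0 < k ∧ 0 < l ∧
    (v : ℚ) = (l : ℚ) * ((l : ℚ) - 2) * k / (((l : ℚ) - 1) ^ 2 - k) ∧
    (∃ B, SymBIBD v k B) ∧ ∀ B, SymBIBD v k B → ∀ f : Fin v → Fin l, ¬ ULSE v k l B f := by
  refine ⟨16, 10, 6, by norm_num, by norm_num, by norm_num, by norm_num,
    ⟨D, by norm_num, by norm_num, by decide, 6, by norm_num, by decide +kernel⟩, ?_⟩
  rintro B ⟨-, -, hk, lam, hl, h⟩ f ⟨-, -, hf⟩
  have h1 := count B lam h 0 (univ.erase 0) (by simp) 9 (by
    intro i hi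
    have : (univ.erase (0 : Fin 16)).filter (fun y => y ∈ B i) = (B i).erase 0 := by
      ext y; simp
    rw [this, card_erase_of_mem hi, hk])
  have h2 := count B lam h 0 ((univ.filter (fun y => f y = f 0)).erase 0) (by simp) 1 (by
    intro i hi
    have : ((univ.filter (fun y => f y = f 0)).erase (0 : Fin 16)).filter (fun y => y ∈ B i) =
        ((B i).filter (fun y => f y = f 0)).erase 0 := by
      ext y; simp; tauto
    have hm : (0 : Fin 16) ∈ (B i).filter (fun y => f y = f 0) := mem_filter.2 ⟨hi, rfl⟩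
    obtain ⟨c, hc, hc'⟩ := hf i
    have hne : f 0 ≠ c := by
      rintro rfl
      rw [card_eq_zero] at hc
      rw [hc] at hm
      simp at hm
    rw [this, card_erase_of_mem hm, hc' _ hne])
  rw [card_erase_of_mem (mem_univ _), card_univ, Fintype.card_fin] at h1
  generalize ((univ.filter (fun y => f y = f 0)).erase (0 : Fin 16)).card = s at h2
  have h3 : (9 * s) * lam = 15 * lam := by nlinarith
  have h4 := Nat.eq_of_mul_eq_mul_right hl h3
  omega

end Pool.Agent.Results.MP_9fbb3c_co.Counter
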